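import Pool.Agent.Lib.MP_e1f7e2_al.SU.Iface2

set_option autoImplicit false

/-! Project SU3 (MP_e1f7e2_al), module AUTFR: the Jacobian of an automorphism is a nonzero
constant. -/

open MvPolynomial

namespace Pool.Agent.Lib.MP_e1f7e2_al.SU.H47

section

variable {K : Type*} [Field K]

/-- chain rule for `D` -/
lemma D_aeval (Y : Fin 3 → MvPolynomial (Fin 3) K) (P : MvPolynomial (Fin 3) K) :
    D (aeval Y P) = aeval Y (pderiv 0 P) • D (Y 0) + aeval Y (pderiv 1 P) • D (Y 1) +
      aeval Y (pderiv 2 P) • D (Y 2) := by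
  induction P using MvPolynomial.induction_on with
  | C a =>
    simp [D_C, algebraMap_eq]
  | add p q hp hq =>
    rw [map_add, D_add, hp, hq]
    simp only [map_add, add_smul]
    abel
  | mul_X p n hp =>
    rw [map_mul, D_mul, hp, aeval_X]
    have e : ∀ i : Fin 3, aeval Y (pderiv i (p * X n)) =
        aeval Y p * aeval Y (pderiv i (X n : MvPolynomial (Fin 3) K)) +
          Y n * aeval Y (pderiv i p) := by
      intro i
      rw [Derivation.leibniz, map_add, smul_eq_mul, smul_eq_mul, map_mul, map_mul, aeval_X]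
    rw [e 0, e 1, e 2]
    fin_cases n
    · simp [pderiv_X, add_smul, smul_smul]
      abel
    · simp [pderiv_X, add_smul, smul_smul]
      abel
    · simp [pderiv_X, add_smul, smul_smul]
      abel

lemma dt_cr_comb (u v z : Fin 3 → MvPolynomial (Fin 3) K)
    (a b c a' b' c' a'' b'' c'' : MvPolynomial (Fin 3) K) :
    dt (a • u + b • v + c • z)
      (cr (a' • u + b' • v + c' • z) (a'' • u + b'' • v + c'' • z)) =
      (a * (b' * c'' - c' * b'') - b * (a' * c'' - c' * a'') + c * (a' * b'' - b' * a'')) *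
        dt u (cr v z) := by
  simp only [cr, dt, Pi.add_apply, Pi.smul_apply, smul_eq_mul, Matrix.cons_val_zero,
    Matrix.cons_val_one, Matrix.cons_val]
  ring

/-- the Jacobian determinant -/
noncomputable def jac (f g h : MvPolynomial (Fin 3) K) : MvPolynomial (Fin 3) K :=
  pderiv 0 f * (pderiv 1 g * pderiv 2 h - pderiv 2 g * pderiv 1 h) +
    pderiv 1 f * (pderiv 2 g * pderiv 0 h - pderiv 0 g * pderiv 2 h) +
    pderiv 2 f * (pderiv 0 g * pderiv 1 h - pderiv 1 g * pderiv 0 h)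

lemma dt_D (f g h : MvPolynomial (Fin 3) K) :
    dt (D f) (cr (D g) (D h)) = jac f g h * (X 0 * X 1 * X 2) := by
  simp only [cr, dt, D, jac, Matrix.cons_val_zero, Matrix.cons_val_one, Matrix.cons_val]
  ring

lemma fr_iff_jac (f g h : MvPolynomial (Fin 3) K) :
    Fr f g h ↔ ∃ c : K, c ≠ 0 ∧ jac f g h = C c := by
  have hX : (X 0 * X 1 * X 2 : MvPolynomial (Fin 3) K) ≠ 0 := by
    simp [MvPolynomial.X_ne_zero]
  constructor
  · rintro ⟨c, hc, h1⟩
    refine ⟨c, hc, ?_⟩
    rw [dt_D] at h1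
    exact mul_right_cancel₀ hX h1
  · rintro ⟨c, hc, h1⟩
    refine ⟨c, hc, ?_⟩
    rw [dt_D, h1]

/-- the Jacobian of an automorphism is a nonzero constant -/
theorem autfr : AutfrStatement K := by
  intro ρ
  set Y : Fin 3 → MvPolynomial (Fin 3) K := fun i => ρ (X i) with hY
  have hρ : ∀ P : MvPolynomial (Fin 3) K, aeval Y P = ρ P := by
    intro P
    have : (aeval Y : MvPolynomial (Fin 3) K →ₐ[K] MvPolynomial (Fin 3) K) =
        (ρ : MvPolynomial (Fin 3) K →ₐ[K] MvPolynomial (Fin 3) K) := by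
      apply MvPolynomial.algHom_ext
      intro i
      simp [hY]
    exact congrArg (fun φ : MvPolynomial (Fin 3) K →ₐ[K] MvPolynomial (Fin 3) K => φ P) this
  have hX : (X 0 * X 1 * X 2 : MvPolynomial (Fin 3) K) ≠ 0 := by
    simp [MvPolynomial.X_ne_zero]
  -- `X i` in terms of `Y`
  have key : ∀ i : Fin 3, D (X i : MvPolynomial (Fin 3) K) =
      aeval Y (pderiv 0 (ρ.symm (X i))) • D (Y 0) + aeval Y (pderiv 1 (ρ.symm (X i))) • D (Y 1) +
      aeval Y (pderiv 2 (ρ.symm (X i))) • D (Y 2) := by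
    intro i
    rw [← D_aeval, hρ, AlgEquiv.apply_symm_apply]
  obtain ⟨c0, hc0, h0⟩ := fr_X (K := K)
  rw [key 0, key 1, key 2, dt_cr_comb, dt_D, ← mul_assoc] at h0
  have h1 := mul_right_cancel₀ hX h0
  have hu : IsUnit (jac (Y 0) (Y 1) (Y 2)) := by
    have hC : IsUnit (C c0 : MvPolynomial (Fin 3) K) := (isUnit_iff_ne_zero.mpr hc0).map C
    rw [← h1] at hC
    exact isUnit_of_mul_isUnit_right hC
  obtain ⟨r, hr, h2⟩ := isUnit_iff_eq_C_of_isReduced.mp hu
  exact (fr_iff_jac _ _ _).mpr ⟨r, hr.ne_zero, h2⟩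

end

end Pool.Agent.Lib.MP_e1f7e2_al.SU.H47
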