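import Pool.Agent.Lib.MP_e1f7e2_al.SU.H47.Autfr

set_option autoImplicit false

/-! Project SU3 (MP_e1f7e2_al), module COS: the coset is stable under tame changes. -/

open MvPolynomial

namespace Pool.Agent.Lib.MP_e1f7e2_al.SU.H47

lemma inj_of_surj {R : Type*} [CommRing R] [IsNoetherianRing R] (f : R →+* R)
    (hf : Function.Surjective f) : Function.Injective f := by
  have hmono : Monotone (fun n : ℕ => (RingHom.ker (f ^ n) : Ideal R)) := by
    apply monotone_nat_of_le_succ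
    intro n x hx
    rw [RingHom.mem_ker] at hx ⊢
    rw [RingHom.coe_pow] at hx ⊢
    rw [Function.iterate_succ_apply', hx, map_zero]
  obtain ⟨n, hn⟩ := monotone_stabilizes_iff_noetherian.mpr
    (inferInstance : IsNoetherian R R) ⟨_, hmono⟩
  rw [injective_iff_map_eq_zero]
  intro x hx
  obtain ⟨y, rfl⟩ := hf.iterate n x
  have h1 : y ∈ RingHom.ker (f ^ (n + 1)) := by
    rw [RingHom.mem_ker, RingHom.coe_pow, Function.iterate_succ_apply', hx]
  have h2 : y ∈ RingHom.ker (f ^ n) := by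
    have := hn (n + 1) (by omega)
    simp only [OrderHom.coe_mk] at this
    rw [this]
    exact h1
  rw [RingHom.mem_ker, RingHom.coe_pow] at h2
  exact h2

section

variable {K : Type*} [Field K]

lemma cos_comp {ψ τ σ : MvPolynomial (Fin 3) K ≃ₐ[K] MvPolynomial (Fin 3) K}
    (hτ : τ ∈ TAut K (X : Fin 3 → MvPolynomial (Fin 3) K))
    (hσ : σ ∈ TAut K (X : Fin 3 → MvPolynomial (Fin 3) K))
    {Y : Fin 3 → MvPolynomial (Fin 3) K} (hY : ∀ i, Y i = ψ (τ (σ (X i)))) : Cos ψ Y :=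
  ⟨τ * σ, mul_mem hτ hσ, hY⟩

/-- pairs of endomorphisms with `f (g (X i)) = X i` give automorphisms -/
lemma exists_aut (f g : MvPolynomial (Fin 3) K →ₐ[K] MvPolynomial (Fin 3) K)
    (h : ∀ i, f (g (X i)) = X i) :
    ∃ φ : MvPolynomial (Fin 3) K ≃ₐ[K] MvPolynomial (Fin 3) K, ∀ P, φ P = f P := by
  have hs : Function.Surjective f := by
    intro P
    refine ⟨g P, ?_⟩
    have : (f.comp g) = AlgHom.id K _ := by
      apply MvPolynomial.algHom_ext
      intro i
      simp [h i]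
    exact congrArg (fun φ : MvPolynomial (Fin 3) K →ₐ[K] MvPolynomial (Fin 3) K => φ P) this
  exact ⟨AlgEquiv.ofBijective f ⟨inj_of_surj (f : MvPolynomial (Fin 3) K →+* _) hs, hs⟩,
    fun P => rfl⟩

/-- `ev` under an algebra homomorphism -/
lemma map_ev (φ : MvPolynomial (Fin 3) K →ₐ[K] MvPolynomial (Fin 3) K)
    (P : MvPolynomial (Fin 2) K) (f g : MvPolynomial (Fin 3) K) :
    φ (ev P f g) = ev P (φ f) (φ g) := by
  have : φ.comp (aeval ![f, g] : MvPolynomial (Fin 2) K →ₐ[K] MvPolynomial (Fin 3) K) =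
      aeval ![φ f, φ g] := by
    apply MvPolynomial.algHom_ext
    intro i
    fin_cases i <;> simp
  exact congrArg (fun χ : MvPolynomial (Fin 2) K →ₐ[K] MvPolynomial (Fin 3) K => χ P) this

lemma map_ev' (φ : MvPolynomial (Fin 3) K ≃ₐ[K] MvPolynomial (Fin 3) K)
    (P : MvPolynomial (Fin 2) K) (f g : MvPolynomial (Fin 3) K) :
    φ (ev P f g) = ev P (φ f) (φ g) :=
  map_ev (φ : MvPolynomial (Fin 3) K →ₐ[K] MvPolynomial (Fin 3) K) P f g

lemma ev_mem_adjoin (P : MvPolynomial (Fin 2) K) (s : Set (MvPolynomial (Fin 3) K))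
    {f g : MvPolynomial (Fin 3) K} (hf : f ∈ s) (hg : g ∈ s) :
    ev P f g ∈ Algebra.adjoin K s := by
  induction P using MvPolynomial.induction_on with
  | C a => rw [ev_C]; exact (Algebra.adjoin K s).algebraMap_mem a
  | add p q hp hq => rw [ev_add]; exact add_mem hp hq
  | mul_X p n hp =>
    rw [ev_mul]
    refine mul_mem hp ?_
    fin_cases n
    · simpa [ev_X0] using Algebra.subset_adjoin hf
    · simpa [ev_X1] using Algebra.subset_adjoin hg

/-- elementary automorphism of the first variable -/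
lemma exists_elem0 (P : MvPolynomial (Fin 2) K) :
    ∃ σ ∈ TAut K (X : Fin 3 → MvPolynomial (Fin 3) K),
      σ (X 0) = X 0 + ev P (X 1) (X 2) ∧ σ (X 1) = X 1 ∧ σ (X 2) = X 2 := by
  obtain ⟨φ, hφ⟩ := exists_aut (K := K)
    (aeval ![X 0 + ev P (X 1) (X 2), X 1, X 2]) (aeval ![X 0 - ev P (X 1) (X 2), X 1, X 2]) (by
      intro i
      have h1 : (aeval ![X 0 + ev P (X 1) (X 2), X 1, X 2] :
          MvPolynomial (Fin 3) K →ₐ[K] MvPolynomial (Fin 3) K) (ev P (X 1) (X 2)) =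
          ev P (X 1) (X 2) := by
        rw [map_ev]; simp
      fin_cases i
      · simp only [Fin.zero_eta, aeval_X, Matrix.cons_val_zero, map_sub, h1]; ring
      · simp
      · simp)
  have e0 : φ (X 0) = X 0 + ev P (X 1) (X 2) := by rw [hφ]; simp
  have e1 : φ (X 1) = X 1 := by rw [hφ]; simp
  have e2 : φ (X 2) = X 2 := by rw [hφ]; simp
  refine ⟨φ, IsElementary.mem ⟨0, 1, ev P (X 1) (X 2), one_ne_zero, ?_, ?_, ?_⟩, e0, e1, e2⟩
  · refine ev_mem_adjoin P _ ⟨1, ?_, rfl⟩ ⟨2, ?_, rfl⟩ <;> simp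
  · rw [e0, one_smul]
  · intro j hj
    fin_cases j
    · exact absurd rfl hj
    · exact e1
    · exact e2

/-- permutations are tame -/
lemma exists_perm (p : Equiv.Perm (Fin 3)) :
    ∃ σ ∈ TAut K (X : Fin 3 → MvPolynomial (Fin 3) K), ∀ i, σ (X i) = X (p i) := by
  refine ⟨renameEquiv K p, IsAffine.mem ?_, fun i => by simp⟩
  intro i
  refine Submodule.subset_span (Set.mem_insert_of_mem _ ⟨p i, ?_⟩)
  simp

lemma cos_el0 (ψ : MvPolynomial (Fin 3) K ≃ₐ[K] MvPolynomial (Fin 3) K)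
    (H1 H2 H3 : MvPolynomial (Fin 3) K) (P : MvPolynomial (Fin 2) K) (h : Cos ψ ![H1, H2, H3]) :
    Cos ψ ![H1 + ev P H2 H3, H2, H3] := by
  obtain ⟨τ, hτ, hY⟩ := h
  obtain ⟨σ, hσ, e0, e1, e2⟩ := exists_elem0 (K := K) P
  have y0 := hY 0
  have y1 := hY 1
  have y2 := hY 2
  simp only [Matrix.cons_val_zero, Matrix.cons_val_one, Matrix.cons_val] at y0 y1 y2
  refine cos_comp hτ hσ (fun i => ?_)
  fin_cases i
  · simp only [Fin.zero_eta, Matrix.cons_val_zero, e0, map_add, map_ev', ← y0, ← y1, ← y2]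
  · simp only [Fin.mk_one, Matrix.cons_val_one, Matrix.cons_val_zero, e1, ← y1]
  · simp only [Fin.reduceFinMk, Matrix.cons_val, e2, ← y2]

lemma cos_perm (ψ : MvPolynomial (Fin 3) K ≃ₐ[K] MvPolynomial (Fin 3) K)
    (Y : Fin 3 → MvPolynomial (Fin 3) K) (p : Equiv.Perm (Fin 3)) (h : Cos ψ Y) :
    Cos ψ (fun i => Y (p i)) := by
  obtain ⟨τ, hτ, hY⟩ := h
  obtain ⟨σ, hσ, e⟩ := exists_perm (K := K) p
  refine cos_comp hτ hσ (fun i => ?_)
  rw [e, hY]

lemma cos_swap01 (ψ : MvPolynomial (Fin 3) K ≃ₐ[K] MvPolynomial (Fin 3) K)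
    (H1 H2 H3 : MvPolynomial (Fin 3) K) (h : Cos ψ ![H1, H2, H3]) : Cos ψ ![H2, H1, H3] := by
  have := cos_perm ψ _ (Equiv.swap 0 1) h
  have e : (fun i => (![H1, H2, H3] : Fin 3 → MvPolynomial (Fin 3) K) ((Equiv.swap 0 1) i)) =
      ![H2, H1, H3] := by
    funext i
    fin_cases i
    · simp
    · simp
    · simp [Equiv.swap_apply_of_ne_of_ne]
  rwa [e] at this

lemma cos_swap12 (ψ : MvPolynomial (Fin 3) K ≃ₐ[K] MvPolynomial (Fin 3) K)
    (H1 H2 H3 : MvPolynomial (Fin 3) K) (h : Cos ψ ![H1, H2, H3]) : Cos ψ ![H1, H3, H2] := by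
  have := cos_perm ψ _ (Equiv.swap 1 2) h
  have e : (fun i => (![H1, H2, H3] : Fin 3 → MvPolynomial (Fin 3) K) ((Equiv.swap 1 2) i)) =
      ![H1, H3, H2] := by
    funext i
    fin_cases i
    · simp [Equiv.swap_apply_of_ne_of_ne]
    · simp
    · simp
  rwa [e] at this

/-- affine map with given values -/
lemma lift_aux (ψ : MvPolynomial (Fin 3) K ≃ₐ[K] MvPolynomial (Fin 3) K)
    (Y : Fin 3 → MvPolynomial (Fin 3) K)
    (T : MvPolynomial (Fin 3) K ≃ₐ[K] MvPolynomial (Fin 3) K)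
    (F : Fin 3 → MvPolynomial (Fin 3) K) (hY : Cos ψ Y)
    (h1 : ∀ i, F i ∈ sp3 (T (Y 0)) (T (Y 1)) (T (Y 2)))
    (h2 : ∀ i, T (Y i) ∈ sp3 (F 0) (F 1) (F 2)) : Cos ψ (fun i => T.symm (F i)) := by
  obtain ⟨τ, hτ, hY⟩ := hY
  have k1 : ∀ i, ∃ l : MvPolynomial (Fin 3) K,
      l ∈ Submodule.span K (insert 1 (Set.range (X : Fin 3 → MvPolynomial (Fin 3) K))) ∧
      T (ψ (τ l)) = F i := by
    intro i
    obtain ⟨a, b, c, d, h⟩ := mem_sp3.mp (h1 i)
    refine ⟨C a * X 0 + C b * X 1 + C c * X 2 + C d, ?_, ?_⟩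
    · refine add_mem (add_mem (add_mem ?_ ?_) ?_) ?_
      · rw [← smul_eq_C_mul]
        exact Submodule.smul_mem _ _ (Submodule.subset_span (by simp))
      · rw [← smul_eq_C_mul]
        exact Submodule.smul_mem _ _ (Submodule.subset_span (by simp))
      · rw [← smul_eq_C_mul]
        exact Submodule.smul_mem _ _ (Submodule.subset_span (by simp))
      · rw [C_eq_smul_one]
        exact Submodule.smul_mem _ _ (Submodule.subset_span (by simp))
    · rw [h, hY 0, hY 1, hY 2]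
      simp only [map_add, map_mul, ← algebraMap_eq, AlgEquiv.commutes]
  choose l hl hlF using k1
  have k2 : ∀ i, ∃ P : MvPolynomial (Fin 3) K, T (Y i) = aeval F P := by
    intro i
    obtain ⟨a, b, c, d, h⟩ := mem_sp3.mp (h2 i)
    refine ⟨C a * X 0 + C b * X 1 + C c * X 2 + C d, ?_⟩
    rw [h]
    simp [algebraMap_eq]
  choose P hP using k2
  have hF : ∀ Q : MvPolynomial (Fin 3) K, T (ψ (τ (aeval l Q))) = aeval F Q := by
    intro Q
    have : ((T : MvPolynomial (Fin 3) K →ₐ[K] MvPolynomial (Fin 3) K).comp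
        ((ψ : MvPolynomial (Fin 3) K →ₐ[K] MvPolynomial (Fin 3) K).comp
        ((τ : MvPolynomial (Fin 3) K →ₐ[K] MvPolynomial (Fin 3) K).comp (aeval l)))) =
        aeval F := by
      apply MvPolynomial.algHom_ext
      intro i
      simp [hlF i]
    exact congrArg (fun χ : MvPolynomial (Fin 3) K →ₐ[K] MvPolynomial (Fin 3) K => χ Q) this
  obtain ⟨φ, hφ⟩ := exists_aut (K := K) (aeval l) (aeval P) (by
    intro i
    rw [aeval_X]
    have := hF (P i)
    rw [← hP i, hY i] at this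
    exact τ.injective (ψ.injective (T.injective this)))
  have e : ∀ i, φ (X i) = l i := by intro i; rw [hφ]; simp
  refine cos_comp (τ := τ) (σ := φ) hτ (IsAffine.mem (fun i => by rw [e]; exact hl i)) ?_
  intro i
  rw [e, ← hlF i, AlgEquiv.symm_apply_apply]

theorem cos : CosFacts K where
  fr := by
    rintro ψ Y T ⟨τ, hτ, hY⟩
    rw [hY 0, hY 1, hY 2]
    exact autfr (T * ψ * τ)
  lift := by
    intro ψ Y T F1 F2 F3 hY _ hs
    have h := lift_aux ψ Y T ![F1, F2, F3] hY (by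
      intro i
      rw [← hs]
      fin_cases i
      · exact mem_sp3.mpr ⟨1, 0, 0, 0, by simp⟩
      · exact mem_sp3.mpr ⟨0, 1, 0, 0, by simp⟩
      · exact mem_sp3.mpr ⟨0, 0, 1, 0, by simp⟩) (by
      intro i
      simp only [Matrix.cons_val_zero, Matrix.cons_val_one, Matrix.cons_val]
      rw [hs]
      fin_cases i
      · exact mem_sp3.mpr ⟨1, 0, 0, 0, by simp⟩
      · exact mem_sp3.mpr ⟨0, 1, 0, 0, by simp⟩
      · exact mem_sp3.mpr ⟨0, 0, 1, 0, by simp⟩)
    have e : (fun i => T.symm ((![F1, F2, F3] : Fin 3 → MvPolynomial (Fin 3) K) i)) =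
        ![T.symm F1, T.symm F2, T.symm F3] := by
      funext i
      fin_cases i <;> simp
    rwa [e] at h
  el0 := cos_el0
  el1 := by
    intro ψ H1 H2 H3 P h
    exact cos_swap01 _ _ _ _ (cos_el0 _ _ _ _ P (cos_swap01 _ _ _ _ h))
  el2 := by
    intro ψ H1 H2 H3 P h
    -- (H1,H2,H3) -> (H3,H1,H2) -> (H3 + P(H1,H2), H1, H2)
    have h1 : Cos ψ ![H3, H1, H2] := cos_swap01 _ _ _ _ (cos_swap12 _ _ _ _ h)
    exact cos_swap12 _ _ _ _ (cos_swap01 _ _ _ _ (cos_el0 _ _ _ _ P h1))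
  perm := fun ψ H1 H2 H3 h => ⟨cos_swap01 _ _ _ _ h, cos_swap12 _ _ _ _ h⟩

end

end Pool.Agent.Lib.MP_e1f7e2_al.SU.H47
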